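import Pool.Agent.Y156.W.Main

/-!
# Iwasawa's `μ = 0` conjecture: number fields of degree prime to `p`

The conjecture that the unramified Iwasawa modules in which the primes above `p` split completely are
finitely generated over `ℤ_p`, for all number fields and all primes `p`, is equivalent to its restriction to
the number fields `K` that contain `M p` and whose degree over `M p` is not divisible by `p`, for each
choice of number fields `M p`, where `M 2` is totally complex. For instance, for `M p = ℚ` if `p` is odd and
`M 2 = ℚ(i)`, these are the number fields of degree prime to `p` over `ℚ`, and for `p = 2` the extensions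
of `ℚ(i)` of odd degree.

The vanishing of the `μ`-invariants is given by its known properties (`IsMu`).
-/

set_option autoImplicit false

namespace Pool.Agent.Results.MP_d0239a_nt.DegreePrimeToP

open Pool.Agent.Y156.W

/-- The reduction to the number fields of degree prime to `p`. -/
theorem result {Ω : Type} [Field Ω] [Algebra ℚ Ω] [IsAlgClosure ℚ Ω]
    (totallyComplex : IntermediateField ℚ Ω → Prop) (mu0 : ℕ → IntermediateField ℚ Ω → Prop)
    (hmu : ∀ p : ℕ, p.Prime →
      IsMu p (fun _ => True) (fun F => p = 2 → totallyComplex F) (mu0 p))
    (M : ℕ → IntermediateField ℚ Ω) (hM : ∀ p, FiniteDimensional ℚ (M p))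
    (hM2 : totallyComplex (M 2)) :
    (∀ p : ℕ, p.Prime → ∀ F : IntermediateField ℚ Ω, FiniteDimensional ℚ F → mu0 p F) ↔
      ∀ p : ℕ, p.Prime → ∀ K : IntermediateField ℚ Ω, PrimeTo p (M p) K → mu0 p K :=
  ⟨fun h p hp => (reduction_all hp (hmu p hp) (hM p) fun h2 => h2 ▸ hM2).1 (h p hp),
    fun h p hp => (reduction_all hp (hmu p hp) (hM p) fun h2 => h2 ▸ hM2).2 (h p hp)⟩

end Pool.Agent.Results.MP_d0239a_nt.DegreePrimeToP
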