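import Pool.Agent.Y194.MU.Seq

/-!
# The distribution of the exponents of class groups converges in pro-`p` towers

Let `A_T(F) ≅ ⨁ ℤ/p^{v_i}` be the `p`-part of the class group of a number field `F`, modulo the classes of the primes above
`T` (narrow classes, if `p = 2` and `F` has real places). By class field theory it is the Galois group of the maximal
abelian `p`-extension of `F` which is unramified (at the finite places) and in which the primes above `T` split
completely, and the number of the homomorphisms `Gal(Ω/F) → ℤ/p^k` killing the inertia groups and the decomposition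
groups above `T` is `p^{∑ min(k, v_i)}`.

Let `K ⊆ E_0 ⊆ E_1 ⊆ …` be number fields, `E_{n+1}/E_n` a Galois extension of degree `p^{m_n}`, and let `t_n` places of `E_n`
be exceptional in `E_{n+1}` (they ramify, or lie above `T` and do not split completely). Suppose that
`∑_n m_n t_n / [E_n : K] < ∞`. Let `v_i(n)` be the exponents of `A_T(E_n)`.

Theorem. For every `j` the normalised weights `∑_i (1 - p^{-min(j, v_i(n))}) / [E_n : K]` converge for `n → ∞`, and so do,
for every `j ≥ 1`,

  `#{i : v_i(n) = j} / [E_n : K]`   and   `#{i : v_i(n) ≥ j} / [E_n : K]`.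

If there are no exceptional places at all (for instance in a `p`-class field tower), then
`(∑_i (1 - p^{-min(j, v_i(n))}) - (1 - p^{-j})) / [E_n : K]` does not increase with `n`.

Let `c_j` be the limit of the first quotient. For the cyclotomic `ℤ_p`-extension of `F`, with `T` the set of the primes
above `p`, the condition holds (`m_n = 1`, `t_n` bounded, `[E_n : K] = p^n [F : K]`), and `[F : K] c_j` is the number of the summands
`Λ/p^j` of the Iwasawa module `X` of the problem: the structure theory of `Λ`-modules gives the existence of the limits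
in this case. So `(c_j)_{j ≥ 1}` is a generalisation of the `μ`-type of `X` to arbitrary towers with slowly
growing ramification: `p`-adic Lie extensions in which the decomposition groups of the ramified places and of the places
above `T` are infinite (where it can be deduced from the structure theory of modules over their Iwasawa algebras), class
field towers, composites of towers, ..., for which there is no structure theory. Q1 asserts that `c_j = 0` for all
`j ≥ 1`, for the cyclotomic towers.
For `j = 1`, i.e. for the `p`-ranks, the convergence is well known; for the exponents `j > 1` it is new. Note that the weights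
`1 - p^{-min(j, v)}` are what makes the argument work: the normalised orders `∑_i min(j, v_i(n))` are not monotone.
-/

set_option autoImplicit false

open IsDedekindDomain NumberField Filter Topology Pool.Agent.Y194.TS Pool.Agent.Y194.MU

namespace Pool.Agent.Results.MP_d0239a_nt.ExponentDistribution

section

variable {K Ω : Type} [Field K] [Field Ω] [Algebra K Ω]

/-- a tower of number fields `E_n`, where `E_{n+1}/E_n` is a Galois extension of degree `p^(m n)` in which at most `t n` places
are exceptional: they ramify or, if they lie above `T`, do not split completely -/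
structure Tower (p : ℕ) (T : Set (HeightOneSpectrum (𝓞 K)))
    (E : ℕ → IntermediateField K Ω) (m t : ℕ → ℕ) : Prop where
  finite : ∀ n, FiniteDimensional K (E n)
  le : ∀ n, E n ≤ E (n + 1)
  galois : ∀ n, ((E (n + 1)).fixingSubgroup.subgroupOf (E n).fixingSubgroup).Normal
  degree : ∀ n, Module.finrank K (E (n + 1)) = p ^ m n * Module.finrank K (E n)
  few : ∀ n, FewPlaces T (E n).fixingSubgroup (E (n + 1)).fixingSubgroup (t n)

/-- the homomorphisms `Gal(Ω/F) → ℤ/p^k` killing the local groups are `p^{∑ min(k, v_i)}` in number, for all `k`: the class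
group modulo the classes of the primes above `T` has `p`-part `⨁ ℤ/p^{v_i}` -/
def HasExponents (p : ℕ) (T : Set (HeightOneSpectrum (𝓞 K))) (F : IntermediateField K Ω)
    (v : Multiset ℕ) : Prop :=
  ∀ k, Finite (LChars T F.fixingSubgroup (p ^ k)) ∧
    Nat.card (LChars T F.fixingSubgroup (p ^ k)) = p ^ (v.map (fun i => min k i)).sum

/-- the weight `∑ (1 - p^{-min(j, v_i)})` -/
noncomputable def weight (p j : ℕ) (v : Multiset ℕ) : ℝ :=
  (v.map (fun i => 1 - ((p : ℝ)⁻¹) ^ min j i)).sum

end

lemma trunc_eq (p j : ℕ) (v : Multiset ℕ) : trunc p j 0 v = weight p j v := by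
  unfold trunc weight
  rw [Nat.cast_zero, zero_mul, zero_add]

/-- convergence of the normalised weights and of the distribution of the exponents; monotonicity in towers without
exceptional places -/
theorem result {K Ω : Type} [Field K] [NumberField K] [Field Ω] [Algebra K Ω] [IsAlgClosure K Ω]
    {p : ℕ} [Fact p.Prime] {T : Set (HeightOneSpectrum (𝓞 K))}
    {E : ℕ → IntermediateField K Ω} {m t : ℕ → ℕ} (hE : Tower p T E m t)
    {v : ℕ → Multiset ℕ} (hv : ∀ n, HasExponents p T (E n) (v n)) :
    ((Summable fun n => (m n * t n : ℝ) / Module.finrank K (E n)) →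
      (∀ j, ∃ l : ℝ, Tendsto (fun n => weight p j (v n) / Module.finrank K (E n)) atTop (𝓝 l)) ∧
      ∀ j, 1 ≤ j →
        (∃ l : ℝ, Tendsto (fun n => (Multiset.count j (v n) : ℝ) / Module.finrank K (E n))
          atTop (𝓝 l)) ∧
        ∃ l : ℝ, Tendsto (fun n => (Multiset.countP (fun i => j ≤ i) (v n) : ℝ) /
          Module.finrank K (E n)) atTop (𝓝 l)) ∧
    ((∀ n, t n = 0) → ∀ j, Antitone fun n =>
      (weight p j (v n) - (1 - ((p : ℝ)⁻¹) ^ j)) / Module.finrank K (E n)) := by
  have hgal : IsGalois K Ω := IsAlgClosure.isGalois K Ω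
  have hp2 : (2 : ℝ) ≤ p := by exact_mod_cast (Fact.out : p.Prime).two_le
  have hinv : (p : ℝ)⁻¹ < 1 := inv_lt_one_of_one_lt₀ (by linarith)
  have hinv0 : (0 : ℝ) ≤ (p : ℝ)⁻¹ := by positivity
  have hpos : ∀ n, (0 : ℝ) < Module.finrank K (E n) := fun n => by
    have := hE.finite n
    exact_mod_cast Module.finrank_pos
  have hlev : ∀ n j, weight p j (v (n + 1)) + ((p : ℝ) ^ m n - 1) * (1 - ((p : ℝ)⁻¹) ^ j) ≤
      (p : ℝ) ^ m n * (weight p j (v n) + t n * m n * (1 - (p : ℝ)⁻¹)) := by
    intro n j
    have i0 := hE.finite n
    have i1 := hE.finite (n + 1)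
    have hle : (E (n + 1)).fixingSubgroup ≤ (E n).fixingSubgroup :=
      IntermediateField.fixingSubgroup_antitone (hE.le n)
    have hidx : (E (n + 1)).fixingSubgroup.relIndex (E n).fixingSubgroup = p ^ m n := by
      have h1 := Subgroup.relIndex_mul_index hle
      rw [← IntermediateField.finrank_eq_fixingSubgroup_index,
        ← IntermediateField.finrank_eq_fixingSubgroup_index, hE.degree] at h1
      exact Nat.eq_of_mul_eq_mul_right (Module.finrank_pos) h1
    have h := trunc_level (p := p) T hle (hE.galois n) (E (n + 1)).fixingSubgroup_isOpen hidx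
      (hE.few n) (hv n) (hv (n + 1)) j
    rwa [trunc_eq, trunc_eq] at h
  have hD : ∀ n, (Module.finrank K (E (n + 1)) : ℝ) = (p : ℝ) ^ m n * Module.finrank K (E n) :=
    fun n => by exact_mod_cast hE.degree n
  have hj0 : ∀ j : ℕ, 0 ≤ 1 - ((p : ℝ)⁻¹) ^ j := fun j => by
    have := pow_le_one₀ (n := j) hinv0 hinv.le
    linarith
  have hpm : ∀ n, (1 : ℝ) ≤ (p : ℝ) ^ m n := fun n => one_le_pow₀ (by linarith)
  constructor
  · intro hs
    have h1 : ∀ j, ∃ l : ℝ, Tendsto (fun n => trunc p j ((fun _ => 0 : ℕ → ℕ) n) (v n) /
        Module.finrank K (E n)) atTop (𝓝 l) := by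
      intro j
      refine conv_almost (s := fun n => (m n * t n : ℝ) / Module.finrank K (E n))
        (fun n => div_nonneg (trunc_nonneg _ _ _) (hpos n).le)
        (fun n => div_nonneg (by positivity) (hpos n).le) hs fun n => ?_
      simp only [trunc_eq]
      rw [← add_div, div_le_div_iff₀ (hpos (n + 1)) (hpos n), hD]
      have h2 := hlev n j
      have h3 : 0 ≤ ((p : ℝ) ^ m n - 1) * (1 - ((p : ℝ)⁻¹) ^ j) :=
        mul_nonneg (by linarith [hpm n]) (hj0 j)
      have h4 : (t n * m n : ℝ) * (1 - (p : ℝ)⁻¹) ≤ m n * t n := by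
        have : (0 : ℝ) ≤ t n * m n := by positivity
        nlinarith
      have h5 : weight p j (v (n + 1)) ≤ (p : ℝ) ^ m n * (weight p j (v n) + m n * t n) := by
        have h6 := mul_le_mul_of_nonneg_left (add_le_add_right h4 (weight p j (v n)))
          (zero_le_one.trans (hpm n))
        linarith
      calc weight p j (v (n + 1)) * Module.finrank K (E n)
          ≤ ((p : ℝ) ^ m n * (weight p j (v n) + m n * t n)) * Module.finrank K (E n) :=
            mul_le_mul_of_nonneg_right h5 (hpos n).le
        _ = _ := by ring
    refine ⟨fun j => ?_, fun j hj => ?_⟩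
    · obtain ⟨l, hl⟩ := h1 j
      refine ⟨l, hl.congr fun n => ?_⟩
      rw [trunc_eq]
    · obtain ⟨j, rfl⟩ := Nat.exists_eq_add_of_le' hj
      obtain ⟨⟨l, hl⟩, h2⟩ := seq_conv2 h1 j
      refine ⟨h2, l, hl.congr fun n => ?_⟩
      rw [Nat.cast_zero, zero_add]
      rfl
  · intro ht j
    refine antitone_nat_of_succ_le fun n => ?_
    rw [div_le_div_iff₀ (hpos (n + 1)) (hpos n), hD]
    have h2 := hlev n j
    rw [ht n, Nat.cast_zero, zero_mul, zero_mul, add_zero] at h2
    have h3 : weight p j (v (n + 1)) - (1 - ((p : ℝ)⁻¹) ^ j) ≤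
        (p : ℝ) ^ m n * (weight p j (v n) - (1 - ((p : ℝ)⁻¹) ^ j)) := by linarith
    calc (weight p j (v (n + 1)) - (1 - ((p : ℝ)⁻¹) ^ j)) * Module.finrank K (E n)
        ≤ ((p : ℝ) ^ m n * (weight p j (v n) - (1 - ((p : ℝ)⁻¹) ^ j))) *
          Module.finrank K (E n) := mul_le_mul_of_nonneg_right h3 (hpos n).le
      _ = _ := by ring

end Pool.Agent.Results.MP_d0239a_nt.ExponentDistribution
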